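import Pool.Agent.H83.V.T3

/-!
Theorem V, row W6: the selection changes slowly (compare `Pool.Agent.H34.LF.D6`).
-/

set_option autoImplicit false

open MeasureTheory ProbabilityTheory Filter Topology Finset
open scoped Nat ENNReal

namespace Pool.Agent.H4.V

open Pool.Agent.H24.T2 (Pset)
open Pool.Agent.H67.AG (avgP ul Inv Rt Av SA kap JJ TT InvZ nxt triv tow XN PN TN XX PX TX prX Fac)
open Pool.Agent.H28.LF (Wd La Cd dm ds)
open Pool.Agent.H83.V

namespace W6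

theorem TX_iter {X : Type} [MeasurableSpace X] [StandardBorelSpace X] (T : X ≃ᵐ X) (n l : ℕ)
    (p : XX X n) : (∀ b, ((TX T n)^[l] p).2.1 b = T^[l] (p.2.1 b)) ∧
      ((TX T n)^[l] p).2.2 = T^[l] p.2.2 := by
  induction l with
  | zero => exact ⟨fun b => rfl, rfl⟩
  | succ l ih =>
    rw [Function.iterate_succ_apply']
    constructor
    · intro b
      rw [Function.iterate_succ_apply', ← ih.1 b]
      rfl
    · rw [Function.iterate_succ_apply', ← ih.2]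
      rfl

theorem TT_iter {X : Type} [MeasurableSpace X] (T : X ≃ᵐ X) (l : ℕ) (x y : X) :
    (TT T)^[l] (x, y) = (T^[l] x, T^[l] y) := by
  induction l with
  | zero => rfl
  | succ l ih =>
    rw [Function.iterate_succ_apply', ih, Function.iterate_succ_apply',
      Function.iterate_succ_apply']
    rfl

theorem wd_meas (c : Vx) (Λ : ℕ) : Measurable (c.wd Λ) := by
  refine measurable_pi_iff.2 fun l => ?_
  exact c.am.comp (c.T.measurable.iterate _)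

/-! ### measurability -/

theorem hd_meas (c : Vx) (Λ : ℕ) :
    Measurable fun v : (Fin Λ → Fin c.q) × (Fin Λ → Fin c.q) => c.hd v.1 v.2 :=
  measurable_of_finite _

theorem wd2_meas (c : Vx) (Λ : ℕ) {Ω : Type} [MeasurableSpace Ω] (f g : Ω → c.X)
    (hf : Measurable f) (hg : Measurable g) :
    Measurable fun p : Ω => (c.wd Λ (f p), c.wd Λ (g p)) :=
  ((wd_meas c Λ).comp hf).prodMk ((wd_meas c Λ).comp hg)

theorem meas_hd (c : Vx) (Λ : ℕ) {Ω : Type} [MeasurableSpace Ω] (f g : Ω → c.X)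
    (hf : Measurable f) (hg : Measurable g) (t : ℝ) :
    MeasurableSet {p : Ω | c.hd (c.wd Λ (f p)) (c.wd Λ (g p)) ≤ t} := by
  have h1 : MeasurableSet {v : (Fin Λ → Fin c.q) × (Fin Λ → Fin c.q) | c.hd v.1 v.2 ≤ t} :=
    measurableSet_le (hd_meas c Λ) measurable_const
  have h2 := (wd2_meas c Λ f g hf hg) h1
  have h3 : {p : Ω | c.hd (c.wd Λ (f p)) (c.wd Λ (g p)) ≤ t} =
      (fun p : Ω => (c.wd Λ (f p), c.wd Λ (g p))) ⁻¹'
        {v : (Fin Λ → Fin c.q) × (Fin Λ → Fin c.q) | c.hd v.1 v.2 ≤ t} := by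
    ext p
    rw [Set.mem_preimage, Set.mem_ofPred_eq, Set.mem_ofPred_eq]
  rw [h3]
  exact h2

/-- the references which may be selected -/
def SS (c : Vx) (Λ n : ℕ) (p : XX c.X (n + 1)) (b : Fin (n + 1)) : Prop :=
  ∃ b₁, c.hd (c.wd Λ (p.2.1 b)) (c.wd Λ (p.2.1 b₁)) ≤ c.uh / 2 ∧
    c.hd (c.wd Λ (p.2.1 b₁)) (c.wd Λ p.2.2) ≤ 2 * c.ulo

attribute [local irreducible] Vx.hd in
theorem SS_meas (c : Vx) (Λ n : ℕ) (b : Fin (n + 1)) :
    MeasurableSet {p : XX c.X (n + 1) | SS c Λ n p b} := by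
  have h : {p : XX c.X (n + 1) | SS c Λ n p b} = ⋃ b₁ : Fin (n + 1),
      ({p : XX c.X (n + 1) | c.hd (c.wd Λ (p.2.1 b)) (c.wd Λ (p.2.1 b₁)) ≤ c.uh / 2} ∩
        {p : XX c.X (n + 1) | c.hd (c.wd Λ (p.2.1 b₁)) (c.wd Λ p.2.2) ≤ 2 * c.ulo}) := by
    ext p
    simp only [SS, Set.mem_ofPred_eq, Set.mem_iUnion, Set.mem_inter_iff]
  rw [h]
  refine MeasurableSet.iUnion fun b₁ => ?_
  exact (meas_hd c Λ (fun p : XX c.X (n + 1) => p.2.1 b)
      (fun p : XX c.X (n + 1) => p.2.1 b₁)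
      ((measurable_pi_apply b).comp (measurable_fst.comp measurable_snd))
      ((measurable_pi_apply b₁).comp (measurable_fst.comp measurable_snd)) _).inter
    (meas_hd c Λ (fun p : XX c.X (n + 1) => p.2.1 b₁)
      (fun p : XX c.X (n + 1) => p.2.2)
      ((measurable_pi_apply b₁).comp (measurable_fst.comp measurable_snd))
      (measurable_snd.comp measurable_snd) _)

open Classical in
/-- the minimum of a set given by booleans -/
noncomputable def GG (n : ℕ) (s : Fin (n + 1) → Bool) : Fin (n + 1) :=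
  if h : (univ.filter fun b => s b = true).Nonempty then
    (univ.filter fun b => s b = true).min' h else 0

open Classical in
theorem sel_eq (c : Vx) (Λ n : ℕ) : c.sel Λ n =
    fun p => GG n fun b => decide (SS c Λ n p b) := by
  funext p
  unfold Vx.sel GG SS
  simp only [decide_eq_true_eq]

open Classical in
theorem sel_meas (c : Vx) (Λ n : ℕ) : Measurable (c.sel Λ n) := by
  rw [sel_eq]
  refine (measurable_of_finite (GG n)).comp ?_
  refine measurable_pi_iff.2 fun b => measurable_to_bool ?_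
  have h : (fun p : XX c.X (n + 1) => decide (SS c Λ n p b)) ⁻¹' {true} =
      {p : XX c.X (n + 1) | SS c Λ n p b} := by
    ext p
    simp
  rw [h]
  exact SS_meas c Λ n b

attribute [local irreducible] Vx.hd in
theorem NF_meas (c : Vx) (Λ n : ℕ) : MeasurableSet (c.NF Λ n) := by
  have h : c.NF Λ n = ⋂ b : Fin (n + 1),
      {p : XX c.X (n + 1) | c.hd (c.wd Λ (p.2.1 b)) (c.wd Λ p.2.2) ≤ 2 * c.ulo}ᶜ := by
    ext p
    simp [Vx.NF]
  rw [h]
  refine MeasurableSet.iInter fun b => ?_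
  exact (meas_hd c Λ (fun p : XX c.X (n + 1) => p.2.1 b)
      (fun p : XX c.X (n + 1) => p.2.2)
      ((measurable_pi_apply b).comp (measurable_fst.comp measurable_snd))
      (measurable_snd.comp measurable_snd) _).compl

/-- the selection depends only on the set of the references which may be selected -/
theorem sel_congr (c : Vx) (Λ n : ℕ) (p p' : XX c.X (n + 1))
    (h : ∀ b, SS c Λ n p b ↔ SS c Λ n p' b) : c.sel Λ n p = c.sel Λ n p' := by
  classical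
  rw [sel_eq]
  change GG n (fun b => decide (SS c Λ n p b)) = GG n (fun b => decide (SS c Λ n p' b))
  congr 1
  funext b
  exact decide_eq_decide.mpr (h b)

/-! ### sums of mismatches -/

theorem mm_nn (c : Vx) (x y : c.X) : 0 ≤ c.mm (x, y) := by
  unfold Vx.mm
  split_ifs <;> norm_num

theorem mm_tri (c : Vx) (x y z : c.X) : c.mm (x, z) ≤ c.mm (x, y) + c.mm (z, y) := by
  unfold Vx.mm
  by_cases h1 : c.a x = c.a y
  · by_cases h2 : c.a z = c.a y
    · rw [if_pos h1, if_pos h2, if_pos (h1.trans h2.symm)]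
      norm_num
    · rw [if_pos h1, if_neg h2]
      split_ifs <;> norm_num
  · rw [if_neg h1]
    split_ifs <;> norm_num

/-- the number of mismatches in the window `[l, l + n)` -/
noncomputable def ct (c : Vx) (l n : ℕ) (x y : c.X) : ℝ :=
  ∑ i ∈ range n, c.mm (c.T^[l + i] x, c.T^[l + i] y)

theorem hd_eq (c : Vx) (Λ l : ℕ) (x y : c.X) :
    c.hd (c.wd Λ (c.T^[l] x)) (c.wd Λ (c.T^[l] y)) = ct c l Λ x y / Λ := by
  classical
  unfold Vx.hd ct
  congr 1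
  rw [Finset.card_eq_sum_ones, Nat.cast_sum, Finset.sum_filter, ← Fin.sum_univ_eq_sum_range
    (fun i => c.mm (c.T^[l + i] x, c.T^[l + i] y)) Λ]
  refine Finset.sum_congr rfl fun i _ => ?_
  unfold Vx.mm Vx.wd
  rw [← Function.iterate_add_apply, ← Function.iterate_add_apply, Nat.add_comm (i : ℕ) l]
  by_cases h : c.a (c.T^[l + (i : ℕ)] x) = c.a (c.T^[l + (i : ℕ)] y)
  · rw [if_neg (not_not_intro h), if_pos h]
  · rw [if_pos h, if_neg h, Nat.cast_one]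

theorem wa_eq (c : Vx) (l n : ℕ) (x y : c.X) : c.wa l n (x, y) = ct c l n x y / n := by
  unfold Vx.wa Av ct
  congr 1
  refine Finset.sum_congr rfl fun i _ => ?_
  rw [TT_iter, TT_iter, one_mul, ← Function.iterate_add_apply, ← Function.iterate_add_apply,
    Nat.add_comm i l]

theorem hd_wa (c : Vx) (Λ l : ℕ) (x y : c.X) :
    c.hd (c.wd Λ (c.T^[l] x)) (c.wd Λ (c.T^[l] y)) = c.wa l Λ (x, y) := by
  rw [hd_eq, wa_eq]

theorem hd_wa0 (c : Vx) (Λ : ℕ) (x y : c.X) :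
    c.hd (c.wd Λ x) (c.wd Λ y) = c.wa 0 Λ (x, y) := hd_wa c Λ 0 x y

/-- two references which are close to the last point in two windows have few mismatches in the
common window -/
theorem window (c : Vx) (Λ l : ℕ) (hΛ : 0 < Λ) (hl : 2 * l ≤ Λ) (x x' z : c.X) (u : ℝ)
    (h1 : c.hd (c.wd Λ x) (c.wd Λ z) ≤ u)
    (h2 : c.hd (c.wd Λ (c.T^[l] x')) (c.wd Λ (c.T^[l] z)) ≤ u) :
    c.wa l (Λ - l) (x, x') ≤ 4 * u := by
  have hΛ' : (0 : ℝ) < Λ := by exact_mod_cast hΛ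
  have hl' : (2 : ℝ) * l ≤ Λ := by exact_mod_cast hl
  have e1 : c.hd (c.wd Λ x) (c.wd Λ z) = ct c 0 Λ x z / Λ := hd_eq c Λ 0 x z
  rw [e1, div_le_iff₀ hΛ'] at h1
  rw [hd_eq, div_le_iff₀ hΛ'] at h2
  have h3 : ct c l (Λ - l) x x' ≤ ct c l (Λ - l) x z + ct c l (Λ - l) x' z := by
    unfold ct
    rw [← Finset.sum_add_distrib]
    exact Finset.sum_le_sum fun i _ => mm_tri c _ _ _
  have h4 : ct c l (Λ - l) x z ≤ ct c 0 Λ x z := by
    have e : l + (Λ - l) = Λ := by omega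
    have e2 : ct c 0 Λ x z = ∑ i ∈ range (l + (Λ - l)), c.mm (c.T^[i] x, c.T^[i] z) := by
      unfold ct
      rw [e]
      refine Finset.sum_congr rfl fun i _ => ?_
      rw [Nat.zero_add]
    rw [e2, Finset.sum_range_add]
    exact le_add_of_nonneg_left (Finset.sum_nonneg fun i _ => mm_nn c _ _)
  have h5 : ct c l (Λ - l) x' z ≤ ct c l Λ x' z := by
    unfold ct
    exact Finset.sum_le_sum_of_subset_of_nonneg (Finset.range_mono (Nat.sub_le _ _))
      fun i _ _ => mm_nn c _ _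
  have h6 : ((Λ - l : ℕ) : ℝ) = Λ - l := by
    rw [Nat.cast_sub (by omega)]
  have h0 : 0 ≤ u := by
    have : 0 ≤ ct c l Λ x' z := Finset.sum_nonneg fun i _ => mm_nn c _ _
    by_contra hcon
    nlinarith
  rw [wa_eq, h6, div_le_iff₀ (by nlinarith)]
  nlinarith

/-! ### the selection -/

theorem gap_le {c : Vx} {m t : ℝ} (h : ¬ (c.ulo < m ∧ m ≤ c.uh)) (h1 : m ≤ t)
    (h2 : t ≤ c.uh) : m ≤ c.ulo := by
  by_contra hcon
  exact h ⟨not_le.mp hcon, h1.trans h2⟩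

section step

variable (c : Vx) (Λ l n : ℕ) (p : XX c.X (n + 1))

/-- the pairs of references are good, outside of `FE` -/
theorem good (hM : T_MB) (hN : T_NUM) (hp : p ∉ c.FE Λ l n) (a b : Fin (n + 1)) :
    |c.wa 0 Λ (p.2.1 a, p.2.1 b) - c.M (p.2.1 a, p.2.1 b)| ≤ c.ulo ∧
    |c.wa l (Λ - l) (p.2.1 a, p.2.1 b) - c.M (p.2.1 a, p.2.1 b)| ≤ c.ulo ∧
    |c.wa l Λ (p.2.1 a, p.2.1 b) - c.M (p.2.1 a, p.2.1 b)| ≤ c.ulo ∧
    ¬ (c.ulo < c.M (p.2.1 a, p.2.1 b) ∧ c.M (p.2.1 a, p.2.1 b) ≤ c.uh) := by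
  by_cases hab : a = b
  · subst hab
    have h0 : c.M (p.2.1 a, p.2.1 a) = 0 := ((hM c).2.2.1 (p.2.1 a) (p.2.1 a) (p.2.1 a)).2.2.1
    have h1 := (hN c).2.1
    have hw : ∀ s k, c.wa s k (p.2.1 a, p.2.1 a) = 0 := by
      intro s k
      rw [wa_eq]
      unfold ct Vx.mm
      simp
    rw [hw, hw, hw, h0, sub_self, abs_zero]
    exact ⟨h1.le, h1.le, h1.le, fun h => absurd h.1 (not_lt.mpr h1.le)⟩
  · refine ⟨?_, ?_, ?_, ?_⟩
    · by_contra h
      exact hp ⟨a, b, hab, Or.inl (not_le.mp h)⟩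
    · by_contra h
      exact hp ⟨a, b, hab, Or.inr (Or.inl (not_le.mp h))⟩
    · by_contra h
      exact hp ⟨a, b, hab, Or.inr (Or.inr (Or.inl (not_le.mp h)))⟩
    · intro h
      exact hp ⟨a, b, hab, Or.inr (Or.inr (Or.inr h))⟩

theorem SS_iff (hM : T_MB) (hN : T_NUM) (hΛ : 0 < Λ) (hl : 2 * l ≤ Λ) (hp : p ∉ c.FE Λ l n)
    (h1 : p ∉ c.NF Λ n) (h2 : (TX c.T (n + 1))^[l] p ∉ c.NF Λ n) (b : Fin (n + 1)) :
    SS c Λ n p b ↔ SS c Λ n ((TX c.T (n + 1))^[l] p) b := by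
  obtain ⟨t1, t2⟩ := TX_iter c.T (n + 1) l p
  obtain ⟨-, hu0, hu1, -, -⟩ := hN c
  have hMt := fun x y z => (hM c).2.2.1 x y z
  have hg := good c Λ l n p hM hN hp
  -- closeness of the frequencies
  have near0 : ∀ a b : Fin (n + 1), c.hd (c.wd Λ (p.2.1 a)) (c.wd Λ (p.2.1 b)) ≤ c.uh / 2 ↔
      c.M (p.2.1 a, p.2.1 b) ≤ c.ulo := by
    intro a b
    obtain ⟨g1, -, -, g4⟩ := hg a b
    rw [abs_le] at g1
    rw [hd_wa0]
    constructor
    · intro h
      exact gap_le g4 (t := c.uh / 2 + c.ulo) (by linarith) (by linarith)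
    · intro h
      linarith
  have nearl : ∀ a b : Fin (n + 1),
      c.hd (c.wd Λ (c.T^[l] (p.2.1 a))) (c.wd Λ (c.T^[l] (p.2.1 b))) ≤ c.uh / 2 ↔
      c.M (p.2.1 a, p.2.1 b) ≤ c.ulo := by
    intro a b
    obtain ⟨-, -, g3, g4⟩ := hg a b
    rw [abs_le] at g3
    rw [hd_wa]
    constructor
    · intro h
      exact gap_le g4 (t := c.uh / 2 + c.ulo) (by linarith) (by linarith)
    · intro h
      linarith
  have two : ∀ a a' : Fin (n + 1), c.hd (c.wd Λ (p.2.1 a)) (c.wd Λ p.2.2) ≤ 2 * c.ulo →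
      c.hd (c.wd Λ (c.T^[l] (p.2.1 a'))) (c.wd Λ (c.T^[l] p.2.2)) ≤ 2 * c.ulo →
      c.M (p.2.1 a, p.2.1 a') ≤ c.ulo := by
    intro a a' ha ha'
    have h := window c Λ l hΛ hl _ _ _ _ ha ha'
    obtain ⟨-, g2, -, g4⟩ := hg a a'
    rw [abs_le] at g2
    exact gap_le g4 (t := 9 * c.ulo) (by linarith) (by linarith)
  have tri : ∀ a b e : Fin (n + 1), c.M (p.2.1 a, p.2.1 b) ≤ c.ulo →
      c.M (p.2.1 b, p.2.1 e) ≤ c.ulo → c.M (p.2.1 a, p.2.1 e) ≤ c.ulo := by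
    intro a b e hab hbe
    have h := (hMt (p.2.1 a) (p.2.1 b) (p.2.1 e)).2.2.2.2
    exact gap_le (hg a e).2.2.2 (t := 2 * c.ulo) (by linarith) (by linarith)
  have sym : ∀ a b : Fin (n + 1), c.M (p.2.1 a, p.2.1 b) = c.M (p.2.1 b, p.2.1 a) := fun a b =>
    (hMt (p.2.1 a) (p.2.1 b) (p.2.1 a)).2.2.2.1
  -- close references
  have ex0 : ∃ a : Fin (n + 1), c.hd (c.wd Λ (p.2.1 a)) (c.wd Λ p.2.2) ≤ 2 * c.ulo := by
    by_contra hcon
    exact h1 fun a => not_le.mp fun h => hcon ⟨a, h⟩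
  have exl : ∃ a : Fin (n + 1),
      c.hd (c.wd Λ (c.T^[l] (p.2.1 a))) (c.wd Λ (c.T^[l] p.2.2)) ≤ 2 * c.ulo := by
    by_contra hcon
    refine h2 fun a => not_le.mp fun h => hcon ⟨a, ?_⟩
    rw [t1, t2] at h
    exact h
  obtain ⟨a₀, ha₀⟩ := ex0
  obtain ⟨a₁, ha₁⟩ := exl
  constructor
  · rintro ⟨b₁, hb, hb₁⟩
    refine ⟨a₁, ?_, ?_⟩
    · rw [t1, t1, nearl]
      exact tri _ _ _ ((near0 _ _).1 hb) (two b₁ a₁ hb₁ ha₁)
    · rw [t1, t2]
      exact ha₁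
  · rintro ⟨b₁, hb, hb₁⟩
    rw [t1, t1, nearl] at hb
    rw [t1, t2] at hb₁
    refine ⟨a₀, ?_, ha₀⟩
    rw [near0]
    refine tri _ _ _ hb ?_
    rw [sym]
    exact two a₀ b₁ ha₀ hb₁

end step

end W6

open W6 in
/-- W6 -/
theorem pf_W6 (hM : T_MB) (hN : T_NUM) : T_W6 := by
  intro c Λ l n P _ hP hΛ hl
  refine ⟨sel_meas c Λ n, ?_⟩
  have hsub : {p : XX c.X (n + 1) | c.sel Λ n ((TX c.T (n + 1))^[l] p) ≠ c.sel Λ n p} ⊆
      (c.NF Λ n ∪ (TX c.T (n + 1))^[l] ⁻¹' c.NF Λ n) ∪ c.FE Λ l n := by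
    intro p hp
    by_contra hcon
    simp only [Set.mem_union, not_or] at hcon
    obtain ⟨⟨h1, h2⟩, h3⟩ := hcon
    exact hp (sel_congr c Λ n p _ (SS_iff c Λ l n p hM hN hΛ hl h3 h1 h2)).symm
  have h1 : P.real ((TX c.T (n + 1))^[l] ⁻¹' c.NF Λ n) = P.real (c.NF Λ n) := by
    unfold Measure.real
    rw [(hP.iterate l).measure_preimage (NF_meas c Λ n).nullMeasurableSet]
  calc P.real {p : XX c.X (n + 1) | c.sel Λ n ((TX c.T (n + 1))^[l] p) ≠ c.sel Λ n p}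
      ≤ P.real ((c.NF Λ n ∪ (TX c.T (n + 1))^[l] ⁻¹' c.NF Λ n) ∪ c.FE Λ l n) :=
        measureReal_mono hsub
    _ ≤ P.real (c.NF Λ n ∪ (TX c.T (n + 1))^[l] ⁻¹' c.NF Λ n) + P.real (c.FE Λ l n) :=
        measureReal_union_le _ _
    _ ≤ (P.real (c.NF Λ n) + P.real ((TX c.T (n + 1))^[l] ⁻¹' c.NF Λ n)) +
        P.real (c.FE Λ l n) := add_le_add (measureReal_union_le _ _) le_rfl
    _ = 2 * P.real (c.NF Λ n) + P.real (c.FE Λ l n) := by rw [h1]; ring

end Pool.Agent.H4.V
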